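import Mathlib

/-!
# Multiplicity, Hilbert-Kunz multiplicity, F-signature and the Gorenstein property
-/

set_option autoImplicit false

universe u

open Filter IsLocalRing RingTheory.Sequence

noncomputable section

namespace Pool.Agent.H34.HK

/-- `F^e_* M`: the additive group `M`, on which `r : R` acts as multiplication by `r ^ (p ^ e)`
(see the instance below). -/
def FStar (_p _e : ℕ) (M : Type u) : Type u := M

instance (p e : ℕ) (M : Type u) [h : AddCommGroup M] : AddCommGroup (FStar p e M) := h

/-- The `R`-module structure of `F^e_* M`: restriction of scalars along the `e`-th iterate of the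
Frobenius. -/
instance (p e : ℕ) {R : Type u} [CommRing R] [ExpChar R p] (M : Type u) [AddCommGroup M]
    [Module R M] : Module R (FStar p e M) :=
  Module.compHom M (iterateFrobenius R p e)

/-- `I^[p ^ e]`: the ideal generated by the `p ^ e`-th powers of the elements of `I`. -/
def frobPow {R : Type u} [CommRing R] (p e : ℕ) (I : Ideal R) : Ideal R :=
  Ideal.span ((fun x => x ^ p ^ e) '' (I : Set R))

section

variable (R : Type u) [CommRing R] [IsLocalRing R]

/-- A Noetherian local ring is Gorenstein: for some sequence `xs` that is `R`-regular, the quotient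
`R / (xs)` is Artinian and its zero ideal is irreducible. -/
def IsGorensteinLocal : Prop :=
  ∃ xs : List R, IsRegular R xs ∧ IsArtinianRing (R ⧸ Ideal.ofList xs) ∧
    ∀ I J : Ideal (R ⧸ Ideal.ofList xs), I ⊓ J = ⊥ → I = ⊥ ∨ J = ⊥

/-- `c` is the Hilbert-Samuel multiplicity `lim d! ℓ(R / 𝔪^n) / n^d` of the local ring `R` of
dimension `d`. -/
def IsMultiplicity (d : ℕ) (c : ℝ) : Prop :=
  Tendsto (fun n : ℕ => (d.factorial : ℝ) *
    ((Module.length R (R ⧸ maximalIdeal R ^ n)).toNat : ℝ) / (n : ℝ) ^ d) atTop (nhds c)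

/-- `c` is the Hilbert-Kunz multiplicity `lim ℓ(R / 𝔪^[p^e]) / (p^e)^d` of the local ring `R` of
dimension `d`. -/
def IsHKMultiplicity (p d : ℕ) (c : ℝ) : Prop :=
  Tendsto (fun e : ℕ => ((Module.length R (R ⧸ frobPow p e (maximalIdeal R))).toNat : ℝ) /
    ((p : ℝ) ^ e) ^ d) atTop (nhds c)

/-- `a` is the number `a_e`: `F^e_* R` is isomorphic to `R ^ a ⊕ N`, where `N` has no free direct
summand (no surjective linear map `N → R`). -/
def IsFreeRank (p e : ℕ) [ExpChar R p] (a : ℕ) : Prop :=
  ∃ (N : Type u) (_ : AddCommGroup N) (_ : Module R N),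
    Nonempty (FStar p e R ≃ₗ[R] (Fin a → R) × N) ∧ ¬ ∃ f : N →ₗ[R] R, Function.Surjective f

/-- `[k : k ^ p]` for the residue field `k` of `R`: the length of the `R`-module `F_* k`, which is the
dimension of `F_* k` over `k`. -/
def resDegree (p : ℕ) [ExpChar R p] : ℕ := (Module.length R (FStar p 1 (ResidueField R))).toNat

/-- `s` is the F-signature `lim a_e / p ^ (e (d + α))` of the local ring `R` of dimension `d`, where
`p ^ α = [k : k ^ p]` for the residue field `k` of `R`. -/
def IsFSignature (p d : ℕ) [ExpChar R p] (s : ℝ) : Prop :=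
  ∃ a : ℕ → ℕ, (∀ e, IsFreeRank R p e (a e)) ∧
    Tendsto (fun e : ℕ => (a e : ℝ) / ((p : ℝ) ^ d * (resDegree R p : ℝ)) ^ e) atTop (nhds s)

end

end Pool.Agent.H34.HK
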