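import Pool.Agent.H34.HK.Ideals

/-!
# Powers of the maximal ideal in coordinates
-/

set_option autoImplicit false

open MvPowerSeries IsLocalRing

noncomputable section

namespace Pool.Agent.H34.HK

variable {p : ℕ} [hp : Fact p.Prime]

theorem mem_pow_of_order (j : ℕ) (f : P p) (h : ∀ m : Fin 2 →₀ ℕ, m.degree < j → coeff m f = 0) :
    f ∈ maximalIdeal (P p) ^ j := by
  induction j generalizing f with
  | zero => simp
  | succ j ih =>
    let f1 : P p := fun m => coeff (Finsupp.single 0 1 + m) f
    let g1 : P p := fun m => if m 0 = 0 then coeff (Finsupp.single 1 1 + m) f else 0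
    have hf1 : ∀ m, coeff m f1 = coeff (Finsupp.single 0 1 + m) f := fun m => rfl
    have hg1 : ∀ m, coeff m g1 = if m 0 = 0 then coeff (Finsupp.single 1 1 + m) f else 0 :=
      fun m => rfl
    have hf : f = uu p * f1 + vv p * g1 := by
      ext m
      rw [map_add]
      by_cases h0 : m 0 = 0
      · have e1 : coeff m (uu p * f1) = 0 := X_dvd_iff.1 (Dvd.intro _ rfl) m h0
        rw [e1, zero_add]
        by_cases h1 : m 1 = 0
        · have e2 : coeff m (vv p * g1) = 0 := X_dvd_iff.1 (Dvd.intro _ rfl) m h1
          rw [e2]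
          apply h
          have : m = 0 := by
            ext i
            fin_cases i
            · exact h0
            · exact h1
          rw [this]
          simp
        · have hm : m = Finsupp.single 1 1 + (m - Finsupp.single 1 1) := by
            ext i
            fin_cases i
            · simp
            · simp; omega
          rw [hm, vv, X, coeff_add_monomial_mul, one_mul, hg1, if_pos (by simpa using h0)]
      · have hm : m = Finsupp.single 0 1 + (m - Finsupp.single 0 1) := by
          ext i
          fin_cases i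
          · simp; omega
          · simp
        have e1 : coeff m (uu p * f1) = coeff m f := by
          conv_lhs => rw [hm, uu, X, coeff_add_monomial_mul, one_mul, hf1, ← hm]
        rw [e1]
        by_cases h1 : m 1 = 0
        · have e2 : coeff m (vv p * g1) = 0 := X_dvd_iff.1 (Dvd.intro _ rfl) m h1
          rw [e2, add_zero]
        · have hm1 : m = Finsupp.single 1 1 + (m - Finsupp.single 1 1) := by
            ext i
            fin_cases i
            · simp
            · simp; omega
          have e2 : coeff m (vv p * g1) = 0 := by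
            rw [hm1, vv, X, coeff_add_monomial_mul, one_mul, hg1, if_neg (by simpa using h0)]
          rw [e2, add_zero]
    rw [hf, pow_succ']
    have deg1 : ∀ (i : Fin 2) (m : Fin 2 →₀ ℕ), (Finsupp.single i 1 + m).degree = 1 + m.degree := by
      intro i m
      rw [map_add, Finsupp.degree_single]
    refine Ideal.add_mem _ (Ideal.mul_mem_mul ?_ (ih _ ?_)) (Ideal.mul_mem_mul ?_ (ih _ ?_))
    · rw [mem_maxP]; simp
    · intro m hm
      rw [hf1]
      exact h _ (by rw [deg1]; omega)
    · rw [mem_maxP]; simp
    · intro m hm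
      rw [hg1]
      split_ifs
      · exact h _ (by rw [deg1]; omega)
      · rfl

/-- vanishing order at least `j` -/
def Ord (j : ℕ) (f : P p) : Prop := (j : ℕ∞) ≤ f.order

theorem ord_iff {j : ℕ} {f : P p} : Ord j f ↔ ∀ m : Fin 2 →₀ ℕ, m.degree < j → coeff m f = 0 := by
  constructor
  · intro h m hm
    apply coeff_of_lt_order
    exact lt_of_lt_of_le (by exact_mod_cast hm) h
  · intro h
    exact nat_le_order h

theorem Ord.mul {i j : ℕ} {f g : P p} (hf : Ord i f) (hg : Ord j g) : Ord (i + j) (f * g) := by
  unfold Ord at *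
  push_cast
  exact (add_le_add hf hg).trans le_order_mul

theorem Ord.mono {i j : ℕ} {f : P p} (hf : Ord i f) (h : j ≤ i) : Ord j f :=
  le_trans (by exact_mod_cast h) hf

theorem Ord.add {j : ℕ} {f g : P p} (hf : Ord j f) (hg : Ord j g) : Ord j (f + g) :=
  (le_min hf hg).trans min_order_le_add

theorem ord_zero (f : P p) : Ord 0 f := by
  unfold Ord
  simp

theorem Ord.pow {j : ℕ} {f : P p} (hf : Ord j f) (n : ℕ) : Ord (j * n) (f ^ n) := by
  induction n with
  | zero => exact ord_zero _
  | succ n ih =>
    rw [pow_succ, Nat.mul_succ]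
    exact ih.mul hf

theorem ord_one {f : P p} : Ord 1 f ↔ f ∈ maximalIdeal (P p) := by
  rw [mem_maxP, ord_iff]
  constructor
  · intro h
    exact h 0 (by simp)
  · intro h m hm
    have : m = 0 := by
      rw [← Finsupp.degree_eq_zero_iff]
      omega
    rw [this]
    exact h

theorem ord_zz : Ord (p + 1) (zz p) := by
  have hu : Ord 1 (uu p) := by rw [ord_one, mem_maxP]; simp
  have hv : Ord 1 (vv p) := by rw [ord_one, mem_maxP]; simp
  unfold zz
  refine Ord.add ?_ ?_
  · have := (hu.pow p).mul hv
    rwa [one_mul] at this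
  · have := hu.mul (hv.pow p)
    rwa [one_mul, add_comm] at this

/-- the candidate for `𝔪 ^ n` -/
def JJ (n : ℕ) (a : AA p) : Prop := ∀ i : Fin p, Ord (n - i) (coord a i)

theorem JJ_EE {n : ℕ} {b : Fin p → P p} : JJ n (EE b) ↔ ∀ i : Fin p, Ord (n - i) (b i) := by
  unfold JJ
  rw [coord_EE]

theorem JJ.add {n : ℕ} {a a' : AA p} (h : JJ n a) (h' : JJ n a') : JJ n (a + a') := by
  intro i
  rw [coord_add]
  exact (h i).add (h' i)

theorem JJ_zero (n : ℕ) : JJ n (0 : AA p) := by
  rw [← EE_zero, JJ_EE]
  intro i
  unfold Ord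
  simp

theorem JJ_sum {ι : Type*} (s : Finset ι) (n : ℕ) (f : ι → AA p) (h : ∀ i ∈ s, JJ n (f i)) :
    JJ n (∑ i ∈ s, f i) := by
  classical
  induction s using Finset.induction_on with
  | empty => rw [Finset.sum_empty]; exact JJ_zero n
  | insert a s ha ih =>
    rw [Finset.sum_insert ha]
    exact (h a (Finset.mem_insert_self _ _)).add
      (ih fun i hi => h i (Finset.mem_insert_of_mem hi))

theorem JJ_term {N l : ℕ} {b : P p} (hb : Ord (N - l) b) : JJ N (phi p b * zA p ^ l) := by
  obtain ⟨r, m, hl, h⟩ := term_mem b l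
  have h1 : phi p b * zA p ^ l = EE (Pi.single r (b * zz p ^ m)) := by
    apply Subtype.ext
    rw [EE_coe, ← h]
    simp
  rw [h1, JJ_EE]
  intro i
  by_cases hi : i = r
  · subst hi
    rw [Pi.single_eq_same]
    have h2 : Ord (N - l + (p + 1) * m) (b * zz p ^ m) := hb.mul (ord_zz.pow m)
    refine h2.mono ?_
    rw [add_mul]
    omega
  · rw [Pi.single_eq_of_ne hi]
    unfold Ord
    simp

theorem JJ_mul {n : ℕ} {a c : AA p} (ha : a ∈ maximalIdeal (AA p)) (hc : JJ n c) :
    JJ (n + 1) (a * c) := by
  rw [← EE_coord a, ← EE_coord c, EE_eq_sum, EE_eq_sum, Finset.sum_mul_sum]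
  refine JJ_sum _ _ _ fun i _ => JJ_sum _ _ _ fun j _ => ?_
  have h1 : phi p (coord a i) * zA p ^ (i : ℕ) * (phi p (coord c j) * zA p ^ (j : ℕ)) =
      phi p (coord a i * coord c j) * zA p ^ ((i : ℕ) + j) := by
    rw [map_mul, pow_add]; ring
  rw [h1]
  apply JJ_term
  by_cases hi : (i : ℕ) = 0
  · have h2 : coord a i ∈ maximalIdeal (P p) := by
      rw [mem_maxP]
      rw [mem_maxA, ← EE_coord a, EE_coe, Psi, map_sum, Finset.sum_eq_single i] at ha
      · rw [map_mul, map_pow, hi, pow_zero, map_one, mul_one] at ha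
        exact pow_eq_zero_iff hp.out.ne_zero |>.1 ha
      · intro j _ hj
        have hj0 : (j : ℕ) ≠ 0 := fun h => hj (Fin.ext (by rw [h, hi]))
        rw [map_mul, map_pow, map_pow]
        have : constantCoeff (zz p) = 0 := by
          unfold zz
          simp [hp.out.ne_zero]
        rw [this, zero_pow hj0, mul_zero]
      · intro h
        exact absurd (Finset.mem_univ _) h
    have h3 := (ord_one.2 h2).mul (hc j)
    refine h3.mono ?_
    omega
  · have h3 := (ord_zero (coord a i)).mul (hc j)
    refine h3.mono ?_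
    omega

theorem mem_max_pow (n : ℕ) (a : AA p) : a ∈ maximalIdeal (AA p) ^ n ↔ JJ n a := by
  constructor
  · induction n generalizing a with
    | zero =>
      intro _ i
      rw [Nat.zero_sub]
      exact ord_zero _
    | succ n ih =>
      intro h
      rw [pow_succ'] at h
      induction h using Submodule.mul_induction_on' with
      | mem_mul_mem r hr s hs => exact JJ_mul hr (ih s hs)
      | add x _ y _ hx hy => exact hx.add hy
  · intro h
    rw [← EE_coord a, EE_eq_sum]
    refine Ideal.sum_mem _ fun i _ => ?_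
    have h1 : coord a i ∈ maximalIdeal (P p) ^ (n - (i : ℕ)) :=
      mem_pow_of_order _ _ (ord_iff.1 (h i))
    have h2 : phi p (coord a i) ∈ maximalIdeal (AA p) ^ (n - (i : ℕ)) := by
      have h3 : (maximalIdeal (P p)).map (phi p) ≤ maximalIdeal (AA p) := by
        rw [Ideal.map_le_iff_le_comap]
        intro f hf
        rw [Ideal.mem_comap, mem_maxA]
        rw [mem_maxP] at hf
        rw [phi_coe, map_pow, hf, zero_pow hp.out.ne_zero]
      have h4 := Ideal.mem_map_of_mem (phi p) h1
      rw [Ideal.map_pow] at h4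
      exact Ideal.pow_right_mono h3 _ h4
    have h5 : zA p ^ (i : ℕ) ∈ maximalIdeal (AA p) ^ (i : ℕ) := by
      apply Ideal.pow_mem_pow
      rw [mem_maxA, zA_coe]
      unfold zz
      simp [hp.out.ne_zero]
    have h6 := Ideal.mul_mem_mul h2 h5
    rw [← pow_add] at h6
    exact Ideal.pow_le_pow_right (by omega) h6

/-- exponents of degree less than `j` -/
def tri (j : ℕ) : Finset (Fin 2 →₀ ℕ) :=
  ((Finset.range j ×ˢ Finset.range j).filter fun x => x.1 + x.2 < j).image E2

theorem mem_tri {j : ℕ} {m : Fin 2 →₀ ℕ} : m ∈ tri j ↔ m.degree < j := by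
  unfold tri
  rw [Finset.mem_image]
  have hd : ∀ m : Fin 2 →₀ ℕ, m.degree = m 0 + m 1 := by
    intro m
    conv_lhs => rw [← E2_apply m]
    simp [E2]
  rw [hd]
  constructor
  · rintro ⟨⟨a, b⟩, h, rfl⟩
    simp only [Finset.mem_filter, Finset.mem_product, Finset.mem_range] at h
    simpa [E2] using h.2
  · intro h
    refine ⟨(m 0, m 1), ?_, E2_apply m⟩
    simp only [Finset.mem_filter, Finset.mem_product, Finset.mem_range]
    omega

theorem card_tri (j : ℕ) : (tri j).card = ∑ a ∈ Finset.range j, (j - a) := by
  unfold tri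
  rw [Finset.card_image_of_injective _ E2_injective, Finset.card_filter, Finset.sum_product]
  refine Finset.sum_congr rfl fun a ha => ?_
  rw [Finset.mem_range] at ha
  rw [← Finset.card_filter]
  have : (Finset.range j).filter (fun b => a + b < j) = Finset.range (j - a) := by
    ext b
    simp only [Finset.mem_filter, Finset.mem_range]
    omega
  rw [this, Finset.card_range]

theorem length_pow (n : ℕ) : Module.length (AA p) (AA p ⧸ maximalIdeal (AA p) ^ n) =
    (∑ i : Fin p, ∑ a ∈ Finset.range (n - i), (n - i - a) : ℕ) := by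
  have h := length_of_T (maximalIdeal (AA p) ^ n) (fun i => tri (n - i)) (by
    intro b
    rw [mem_max_pow, JJ_EE]
    refine forall_congr' fun i => ?_
    rw [ord_iff]
    exact forall_congr' fun m => by rw [mem_tri]) n le_rfl
  rw [h]
  simp only [card_tri]

theorem length_frobPow (e : ℕ) : Module.length (AA p) (AA p ⧸ frobPow p (e + 1) (maximalIdeal (AA p))) =
    (p * (p ^ (e + 1)) ^ 2 : ℕ) := by
  have hn : ∃ n, maximalIdeal (AA p) ^ n ≤ frobPow p (e + 1) (maximalIdeal (AA p)) := by
    apply Ideal.exists_pow_le_of_le_radical_of_fg _ (IsNoetherian.noetherian _)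
    intro a ha
    exact ⟨p ^ (e + 1), Ideal.subset_span ⟨a, ha, rfl⟩⟩
  obtain ⟨n, hn⟩ := hn
  have h := length_of_T (frobPow p (e + 1) (maximalIdeal (AA p))) (fun i => box (p ^ (e + 1))) (by
    intro b
    rw [frobPow_eq, mem_span_box]) n hn
  rw [h]
  simp only [card_box, Finset.sum_const, Finset.card_univ, Fintype.card_fin, smul_eq_mul, sq]

end Pool.Agent.H34.HK
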