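import Pool.Agent.H34.HK.Ring
import Pool.Agent.H34.HK.Defs

/-!
# Ideals of `A` in coordinates
-/

set_option autoImplicit false

open MvPowerSeries IsLocalRing

noncomputable section

namespace Pool.Agent.H34.HK

variable {p : ℕ} [hp : Fact p.Prime]

/-- coordinates of an element -/
def coord (a : AA p) : Fin p → P p := (EE_surj a).choose

theorem EE_coord (a : AA p) : EE (coord a) = a := (EE_surj a).choose_spec

theorem coord_EE (b : Fin p → P p) : coord (EE b) = b := EE_inj (EE_coord _)

theorem coord_add (a a' : AA p) : coord (a + a') = coord a + coord a' := by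
  apply EE_inj
  rw [EE_add, EE_coord, EE_coord, EE_coord]

theorem coord_phi_mul (c : P p) (a : AA p) : coord (phi p c * a) = c • coord a := by
  apply EE_inj
  rw [EE_smul, EE_coord, EE_coord]

theorem coord_smul (c : ZMod p) (a : AA p) : coord (c • a) = fun i => C c * coord a i := by
  have : c • a = phi p (C c) * a := Algebra.smul_def c a
  rw [this, coord_phi_mul]
  rfl

theorem length_of_T (I : Ideal (AA p)) (T : Fin p → Finset (Fin 2 →₀ ℕ))
    (hI : ∀ b : Fin p → P p, EE b ∈ I ↔ ∀ i, ∀ m ∈ T i, coeff m (b i) = 0) (n : ℕ)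
    (hn : (maximalIdeal (AA p)) ^ n ≤ I) :
    Module.length (AA p) (AA p ⧸ I) = (∑ i, (T i).card : ℕ) := by
  let φ : AA p →ₗ[ZMod p] ((Σ i, T i) → ZMod p) :=
    { toFun := fun a t => coeff (t.2 : Fin 2 →₀ ℕ) (coord a t.1)
      map_add' := fun a a' => by
        funext t
        rw [coord_add, Pi.add_apply, Pi.add_apply, map_add]
      map_smul' := fun c a => by
        funext t
        rw [coord_smul]
        simp only [coeff_C_mul]
        rfl }
  have h := length_quotient_eq hres I n hn φ ?_ ?_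
  · rw [h, Fintype.card_sigma]
    simp
  · intro f
    refine ⟨EE fun i => ∑ m : T i, monomial (m : Fin 2 →₀ ℕ) (f ⟨i, m⟩), ?_⟩
    funext t
    obtain ⟨i, m⟩ := t
    change coeff (m : Fin 2 →₀ ℕ) (coord (EE _) i) = _
    rw [coord_EE, map_sum, Finset.sum_eq_single m]
    · rw [coeff_monomial_same]
    · intro m' _ hm'
      rw [coeff_monomial_ne]
      intro h
      exact hm' (Subtype.ext h.symm)
    · intro h
      exact absurd (Finset.mem_univ _) h
  · intro a
    rw [← EE_coord a, hI]
    constructor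
    · intro h i m hm
      have := congrFun h ⟨i, m, hm⟩
      change coeff m (coord (EE (coord a)) i) = 0 at this
      rwa [coord_EE] at this
    · intro h
      funext t
      change coeff (t.2 : Fin 2 →₀ ℕ) (coord (EE (coord a)) t.1) = 0
      rw [coord_EE]
      exact h t.1 _ t.2.2

/-- ideals generated by elements of `P` -/
theorem mem_span_phi (c d : P p) (b : Fin p → P p) :
    EE b ∈ Ideal.span {phi p c, phi p d} ↔ ∀ i, b i ∈ Ideal.span {c, d} := by
  constructor
  · intro h i
    obtain ⟨α, β, h⟩ := Ideal.mem_span_pair.1 h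
    have h1 : b = c • coord α + d • coord β := by
      apply EE_inj
      rw [EE_add, EE_smul, EE_smul, EE_coord, EE_coord, ← h]
      ring
    rw [h1, Ideal.mem_span_pair]
    exact ⟨coord α i, coord β i, by simp [mul_comm]⟩
  · intro h
    have h1 : ∀ i, ∃ α β, α * c + β * d = b i := fun i => Ideal.mem_span_pair.1 (h i)
    choose α β hαβ using h1
    rw [Ideal.mem_span_pair]
    refine ⟨EE α, EE β, ?_⟩
    have : b = c • α + d • β := by
      funext i
      rw [← hαβ i]
      simp [mul_comm]
    rw [this, EE_add, EE_smul, EE_smul]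
    ring

theorem mem_span_pow (q : ℕ) (f : P p) : f ∈ Ideal.span {uu p ^ q, vv p ^ q} ↔
    ∀ m : Fin 2 →₀ ℕ, m 0 < q → m 1 < q → coeff m f = 0 := by
  constructor
  · intro h m h0 h1
    obtain ⟨α, β, rfl⟩ := Ideal.mem_span_pair.1 h
    rw [map_add, (X_pow_dvd_iff.1 (Dvd.intro_left α rfl)) m h0,
      (X_pow_dvd_iff.1 (Dvd.intro_left β rfl)) m h1, add_zero]
  · intro h
    let f1 : P p := fun m => if m 0 < q then 0 else coeff m f
    have hf1 : ∀ m, coeff m f1 = if m 0 < q then 0 else coeff m f := fun m => rfl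
    have h1 : uu p ^ q ∣ f1 := by
      rw [X_pow_dvd_iff]
      intro m hm
      rw [hf1, if_pos hm]
    have h2 : vv p ^ q ∣ f - f1 := by
      rw [X_pow_dvd_iff]
      intro m hm
      rw [map_sub, hf1]
      split_ifs with h0
      · rw [h m h0 hm, sub_zero]
      · rw [sub_self]
    obtain ⟨α, hα⟩ := h1
    obtain ⟨β, hβ⟩ := h2
    rw [Ideal.mem_span_pair]
    exact ⟨α, β, by linear_combination -hα - hβ⟩

/-- exponent vectors -/
def E2 (ab : ℕ × ℕ) : Fin 2 →₀ ℕ := Finsupp.single 0 ab.1 + Finsupp.single 1 ab.2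

theorem E2_injective : Function.Injective E2 := by
  intro x y h
  have h0 := DFunLike.congr_fun h 0
  have h1 := DFunLike.congr_fun h 1
  simp [E2] at h0 h1
  exact Prod.ext h0 h1

theorem E2_apply (m : Fin 2 →₀ ℕ) : E2 (m 0, m 1) = m := by
  ext i
  fin_cases i <;> simp [E2]

/-- the box of exponents smaller than `q` -/
def box (q : ℕ) : Finset (Fin 2 →₀ ℕ) := (Finset.range q ×ˢ Finset.range q).image E2

theorem mem_box {q : ℕ} {m : Fin 2 →₀ ℕ} : m ∈ box q ↔ m 0 < q ∧ m 1 < q := by
  unfold box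
  rw [Finset.mem_image]
  constructor
  · rintro ⟨⟨a, b⟩, h, rfl⟩
    simpa [E2] using h
  · intro h
    exact ⟨(m 0, m 1), by simpa using h, E2_apply m⟩

theorem card_box (q : ℕ) : (box q).card = q * q := by
  unfold box
  rw [Finset.card_image_of_injective _ E2_injective, Finset.card_product, Finset.card_range]

theorem mem_span_box (q : ℕ) (b : Fin p → P p) :
    EE b ∈ Ideal.span {phi p (uu p ^ q), phi p (vv p ^ q)} ↔
      ∀ i, ∀ m ∈ box q, coeff m (b i) = 0 := by
  rw [mem_span_phi]
  refine forall_congr' fun i => ?_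
  rw [mem_span_pow]
  constructor
  · intro h m hm
    rw [mem_box] at hm
    exact h m hm.1 hm.2
  · intro h m h0 h1
    exact h m (mem_box.2 ⟨h0, h1⟩)

theorem maxP_eq : maximalIdeal (P p) = Ideal.span {uu p ^ 1, vv p ^ 1} := by
  ext f
  rw [mem_maxP, mem_span_pow]
  constructor
  · intro h m h0 h1
    have : m = 0 := by
      ext i
      fin_cases i
      · simpa using h0
      · simpa using h1
    rw [this]
    exact h
  · intro h
    exact h 0 (by simp) (by simp)

theorem zz_mem : zz p ∈ Ideal.span {uu p ^ p, vv p ^ p} := by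
  rw [Ideal.mem_span_pair]
  exact ⟨vv p, uu p, by unfold zz; ring⟩

theorem coe_mem_span {a : AA p} (ha : a ∈ maximalIdeal (AA p)) :
    (a : P p) ∈ Ideal.span {uu p ^ p, vv p ^ p} := by
  rw [mem_maxA] at ha
  rw [← EE_coord a, EE_coe, Psi]
  refine Ideal.sum_mem _ fun i _ => ?_
  by_cases hi : (i : ℕ) = 0
  · have h1 : coord a i ∈ maximalIdeal (P p) := by
      rw [mem_maxP]
      rw [← EE_coord a, EE_coe, Psi, map_sum, Finset.sum_eq_single i] at ha
      · rw [map_mul, map_pow, hi, pow_zero, map_one, mul_one] at ha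
        exact pow_eq_zero_iff hp.out.ne_zero |>.1 ha
      · intro j _ hj
        have hj0 : (j : ℕ) ≠ 0 := fun h => hj (Fin.ext (by rw [h, hi]))
        rw [map_mul, map_pow, map_pow]
        have : constantCoeff (zz p) = 0 := by
          unfold zz
          simp [hp.out.ne_zero]
        rw [this, zero_pow hj0, mul_zero]
      · intro h
        exact absurd (Finset.mem_univ _) h
    rw [maxP_eq, Ideal.mem_span_pair] at h1
    obtain ⟨α, β, h1⟩ := h1
    rw [hi, pow_zero, mul_one, ← h1, add_pow_char, Ideal.mem_span_pair]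
    exact ⟨α ^ p, β ^ p, by ring⟩
  · refine Ideal.mul_mem_left _ _ ?_
    obtain ⟨j, hj⟩ := Nat.exists_eq_succ_of_ne_zero hi
    rw [hj, pow_succ]
    exact Ideal.mul_mem_left _ _ zz_mem

theorem phi_uu_mem : phi p (uu p) ∈ maximalIdeal (AA p) := by
  rw [mem_maxA]
  simp [hp.out.ne_zero]

theorem phi_vv_mem : phi p (vv p) ∈ maximalIdeal (AA p) := by
  rw [mem_maxA]
  simp [hp.out.ne_zero]

theorem frobPow_eq (e : ℕ) : frobPow p (e + 1) (maximalIdeal (AA p)) =
    Ideal.span {phi p (uu p ^ p ^ (e + 1)), phi p (vv p ^ p ^ (e + 1))} := by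
  apply le_antisymm
  · unfold frobPow
    rw [Ideal.span_le]
    rintro _ ⟨a, ha, rfl⟩
    have h1 : a ^ p ^ (e + 1) = phi p ((a : P p) ^ p ^ e) := by
      apply Subtype.ext
      simp only [SubmonoidClass.coe_pow, phi_coe]
      rw [← pow_mul, pow_succ]
    obtain ⟨α, β, h2⟩ := Ideal.mem_span_pair.1 (coe_mem_span ha)
    simp only [SetLike.mem_coe]
    rw [h1, ← h2, add_pow_char_pow, Ideal.mem_span_pair]
    refine ⟨phi p (α ^ p ^ e), phi p (β ^ p ^ e), ?_⟩
    rw [← map_mul, ← map_mul, ← map_add]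
    congr 1
    rw [mul_pow, mul_pow, ← pow_mul, ← pow_mul, ← pow_succ']
  · rw [Ideal.span_le]
    intro r hr
    simp only [Set.mem_insert_iff, Set.mem_singleton_iff] at hr
    rcases hr with rfl | rfl
    · rw [map_pow]
      exact Ideal.subset_span ⟨_, phi_uu_mem, rfl⟩
    · rw [map_pow]
      exact Ideal.subset_span ⟨_, phi_vv_mem, rfl⟩

end Pool.Agent.H34.HK
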