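import Mathlib

/-!
# Length over a local algebra with trivial residue field extension
-/

set_option autoImplicit false

open IsLocalRing

namespace Pool.Agent.H34.HK

variable {k A : Type} [Field k] [CommRing A] [Algebra k A]

theorem length_killed {M : Type} [AddCommGroup M] [Module A M] [Module k M] [IsScalarTower k A M]
    (h : ∀ r : A, ∃ c : k, ∀ x : M, r • x = c • x) : Module.length A M = Module.length k M := by
  apply WithBot.coe_injective
  rw [Module.coe_length, Module.coe_length]
  refine Order.krullDim_eq_of_orderIso
    { toFun := fun N => N.restrictScalars k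
      invFun := fun N =>
        { carrier := N
          add_mem' := N.add_mem
          zero_mem' := N.zero_mem
          smul_mem' := fun r x hx => by
            obtain ⟨c, hc⟩ := h r
            rw [hc]
            exact N.smul_mem c hx }
      left_inv := fun N => rfl
      right_inv := fun N => rfl
      map_rel_iff' := Iff.rfl }

theorem length_eq_length [IsLocalRing A] (hres : ∀ r : A, ∃ c : k, r - algebraMap k A c ∈ maximalIdeal A)
    (n : ℕ) : ∀ {M : Type} [AddCommGroup M] [Module A M] [Module k M] [IsScalarTower k A M]
    (_ : ∀ r ∈ (maximalIdeal A) ^ n, ∀ x : M, r • x = 0), Module.length A M = Module.length k M := by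
  induction n with
  | zero =>
    intro M _ _ _ _ h
    have : Subsingleton M := by
      refine ⟨fun x y => ?_⟩
      have h1 := h 1 (by simp) x
      have h2 := h 1 (by simp) y
      rw [one_smul] at h1 h2
      rw [h1, h2]
    rw [Module.length_eq_zero, Module.length_eq_zero]
  | succ n ih =>
    intro M _ _ _ _ h
    let N : Submodule A M := maximalIdeal A • ⊤
    have h1 : Module.length A M = Module.length A N + Module.length A (M ⧸ N) :=
      Module.length_eq_add_of_exact N.subtype N.mkQ N.subtype_injective N.mkQ_surjective
        (LinearMap.exact_subtype_mkQ N)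
    have h2 : Module.length k M = Module.length k N + Module.length k (M ⧸ N) :=
      Module.length_eq_add_of_exact (N.subtype.restrictScalars k) (N.mkQ.restrictScalars k)
        N.subtype_injective N.mkQ_surjective (LinearMap.exact_subtype_mkQ N)
    rw [h1, h2]
    congr 1
    · apply ih
      rintro r hr ⟨x, hx⟩
      apply Subtype.ext
      change r • x = 0
      have key : N ≤ LinearMap.ker (LinearMap.lsmul A M r) := by
        rw [Submodule.smul_le]
        intro s hs y _
        rw [LinearMap.mem_ker, LinearMap.lsmul_apply, smul_smul]
        apply h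
        rw [pow_succ]
        exact Ideal.mul_mem_mul hr hs
      exact key hx
    · apply length_killed
      intro r
      obtain ⟨c, hc⟩ := hres r
      refine ⟨c, fun x => ?_⟩
      obtain ⟨y, rfl⟩ := Submodule.mkQ_surjective _ x
      rw [← sub_eq_zero]
      have : r • N.mkQ y - c • N.mkQ y = N.mkQ ((r - algebraMap k A c) • y) := by
        rw [map_smul, sub_smul, algebraMap_smul]
      rw [this, Submodule.mkQ_apply, Submodule.Quotient.mk_eq_zero]
      exact Submodule.smul_mem_smul hc trivial

/-- The length of `A / I` when `I` is the kernel of a `k`-linear map onto functions on a finite set. -/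
theorem length_quotient_eq [IsLocalRing A]
    (hres : ∀ r : A, ∃ c : k, r - algebraMap k A c ∈ maximalIdeal A) (I : Ideal A) (n : ℕ)
    (hn : (maximalIdeal A) ^ n ≤ I) {T : Type} [Fintype T] (φ : A →ₗ[k] (T → k))
    (hφ : Function.Surjective φ) (hker : ∀ a, φ a = 0 ↔ a ∈ I) :
    Module.length A (A ⧸ I) = Fintype.card T := by
  have h1 : Module.length A (A ⧸ I) = Module.length k (A ⧸ I) := by
    apply length_eq_length hres n
    intro r hr x
    obtain ⟨y, rfl⟩ := Submodule.Quotient.mk_surjective _ x
    rw [← Submodule.Quotient.mk_smul, Submodule.Quotient.mk_eq_zero]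
    exact I.mul_mem_right _ (hn hr)
  rw [h1]
  let I' : Submodule k A := Submodule.restrictScalars k I
  have hI : I' = LinearMap.ker φ := by
    ext a
    rw [LinearMap.mem_ker, hker]
    rfl
  have e : (A ⧸ I) ≃ₗ[k] (T → k) :=
    (Submodule.quotEquivOfEq I' _ hI).trans (φ.quotKerEquivOfSurjective hφ)
  rw [e.length_eq, Module.length_eq_finrank, Module.finrank_pi]

end Pool.Agent.H34.HK
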