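import Pool.Agent.H34.HK.HS

/-!
# `A` is integrally closed
-/

set_option autoImplicit false

open MvPowerSeries IsLocalRing

noncomputable section

namespace Pool.Agent.H34.HK

variable {p : ℕ} [hp : Fact p.Prime]

theorem mem_of_prime {π : P p} (hπ : Prime π) {g : P p} (h : g * π ^ p ∈ AA p) : g ∈ AA p := by
  obtain ⟨b, hb⟩ := h
  have h1 : π ^ p ∣ ∑ j ∈ Finset.range p, ext0 b j ^ p * zz p ^ j := by
    rw [← Psi_eq, hb]
    exact Dvd.intro_left _ rfl
  have h2 := key hπ _ p le_rfl h1
  have h3 : ∀ i : Fin p, ∃ c, b i = π * c := by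
    intro i
    obtain ⟨c, hc⟩ := h2 i i.2
    rw [ext0_apply] at hc
    exact ⟨c, hc⟩
  choose c hc using h3
  refine ⟨c, ?_⟩
  have h4 : b = π • c := funext hc
  rw [h4, Psi_smul, mul_comm] at hb
  exact mul_right_cancel₀ (pow_ne_zero _ hπ.ne_zero) hb

theorem mem_of_mul_pow {h : P p} (hh : h ≠ 0) : ∀ {f : P p}, f * h ^ p ∈ AA p → f ∈ AA p := by
  induction h using UniqueFactorizationMonoid.induction_on_prime with
  | h₁ => exact absurd rfl hh
  | h₂ x hx =>
    intro f hf
    obtain ⟨y, hy⟩ := hx.exists_right_inv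
    have h1 := (AA p).mul_mem hf (pow_mem_AA y)
    rwa [mul_assoc, ← mul_pow, hy, one_pow, mul_one] at h1
  | h₃ a π ha hπ ih =>
    intro f hf
    apply ih ha
    apply mem_of_prime hπ
    have : f * a ^ p * π ^ p = f * (π * a) ^ p := by ring
    rw [this]
    exact hf

instance : IsIntegrallyClosed (AA p) := by
  let K := FractionRing (AA p)
  let L := FractionRing (P p)
  rw [isIntegrallyClosed_iff K]
  intro x hx
  obtain ⟨a, b, hb, rfl⟩ := IsFractionRing.div_surjective (A := AA p) x
  have hb0 : b ≠ 0 := nonZeroDivisors.ne_zero hb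
  have hbP : (b : P p) ≠ 0 := fun h => hb0 (Subtype.ext h)
  let g : AA p →+* L := (algebraMap (P p) L).comp (AA p).subtype
  have hg : Function.Injective g :=
    (IsFractionRing.injective (P p) L).comp Subtype.val_injective
  let G : K →+* L := IsFractionRing.lift hg
  have hG : ∀ r : AA p, G (algebraMap (AA p) K r) = algebraMap (P p) L (r : P p) := fun r =>
    IsFractionRing.lift_algebraMap hg r
  have h1 : (algebraMap (P p) L).IsIntegralElem (G (algebraMap (AA p) K a / algebraMap (AA p) K b)) := by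
    obtain ⟨f, hf, hf0⟩ := hx
    refine ⟨f.map (AA p).subtype, hf.map _, ?_⟩
    rw [Polynomial.eval₂_map]
    have h2 : (algebraMap (P p) L).comp (AA p).subtype = G.comp (algebraMap (AA p) K) := by
      ext1 r
      exact (hG r).symm
    rw [h2, ← Polynomial.hom_eval₂, hf0, map_zero]
  obtain ⟨f, hf⟩ := (isIntegrallyClosed_iff L).1 (inferInstance : IsIntegrallyClosed (P p)) h1
  rw [map_div₀, hG, hG] at hf
  have h3 : f * (b : P p) = a := by
    apply IsFractionRing.injective (P p) L
    rw [map_mul, hf]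
    exact div_mul_cancel₀ _ fun h => hbP (IsFractionRing.injective (P p) L (by rw [h, map_zero]))
  have h4 : f * (b : P p) ^ p ∈ AA p := by
    have : f * (b : P p) ^ p = ((a * b ^ (p - 1) : AA p) : P p) := by
      push_cast
      rw [← h3, mul_assoc, ← pow_succ', Nat.sub_add_cancel hp.out.one_le]
    rw [this]
    exact (a * b ^ (p - 1) : AA p).2
  refine ⟨⟨f, mem_of_mul_pow hbP h4⟩, ?_⟩
  rw [eq_div_iff (by
    intro h
    exact hb0 ((IsFractionRing.injective (AA p) K) (by rw [h, map_zero]))), ← map_mul]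
  congr 1
  exact Subtype.ext h3

end Pool.Agent.H34.HK
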