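import Mathlib

/-!
# The power series ring in two variables and the key divisibility lemma
-/

set_option autoImplicit false

open MvPowerSeries

noncomputable section

namespace Pool.Agent.H34.HK

variable (p : ℕ) [hp : Fact p.Prime]

/-- `𝔽_p[[u, v]]` -/
abbrev P : Type := MvPowerSeries (Fin 2) (ZMod p)

/-- `u` -/
abbrev uu : P p := X 0
/-- `v` -/
abbrev vv : P p := X 1
/-- `z = u ^ p v + u v ^ p` -/
def zz : P p := uu p ^ p * vv p + uu p * vv p ^ p

instance (n : ℕ) : IsDomain (MvPowerSeries (Fin n) (ZMod p)) := NoZeroDivisors.to_isDomain _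

instance : IsPrincipalIdealRing (MvPowerSeries (Fin 1) (ZMod p)) := by
  let e : PowerSeries (ZMod p) ≃ₐ[ZMod p] MvPowerSeries (Fin 1) (ZMod p) :=
    renameEquiv (ZMod p) (Equiv.ofUnique Unit (Fin 1))
  exact IsPrincipalIdealRing.of_surjective e.toRingEquiv e.surjective

instance : UniqueFactorizationMonoid (P p) :=
  MulEquiv.uniqueFactorizationMonoid (finSuccEquiv (ZMod p) 1).symm.toMulEquiv inferInstance

instance : CharP (P p) p :=
  charP_of_injective_algebraMap (algebraMap (ZMod p) (P p)).injective p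

variable {p}

theorem D_pow (i : Fin 2) (f : P p) : pderiv (ZMod p) i (f ^ p) = 0 := by
  rw [pderiv_pow, CharP.cast_eq_zero, zero_mul, zero_mul]

theorem D_pow_mul (i : Fin 2) (f g : P p) :
    pderiv (ZMod p) i (f ^ p * g) = f ^ p * pderiv (ZMod p) i g := by
  rw [Derivation.leibniz, D_pow, smul_zero, add_zero, smul_eq_mul]

/-- the complementary variable -/
def other (i : Fin 2) : P p := X (1 - i)

theorem D_zz (i : Fin 2) : pderiv (ZMod p) i (zz p) = other i ^ p := by
  unfold zz other
  rw [map_add, D_pow_mul, mul_comm (uu p) (vv p ^ p), D_pow_mul]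
  fin_cases i
  · simp only [Fin.zero_eta, pderiv_X_self, pderiv_X_of_ne (show (1 : Fin 2) ≠ 0 by decide)]
    simp
  · simp only [Fin.mk_one, pderiv_X_self, pderiv_X_of_ne (show (0 : Fin 2) ≠ 1 by decide)]
    simp

theorem D_iter (i : Fin 2) (b : P p) (n m : ℕ) :
    (pderiv (ZMod p) i)^[m] (b ^ p * zz p ^ n) =
      b ^ p * (((n.descFactorial m : ℕ) : P p) * zz p ^ (n - m) * other i ^ (p * m)) := by
  induction m with
  | zero => simp
  | succ m ih =>
    rw [Function.iterate_succ_apply', ih, D_pow_mul]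
    congr 1
    have h1 : ((n.descFactorial m : ℕ) : P p) * zz p ^ (n - m) * other i ^ (p * m) =
        (other i ^ m) ^ p * (((n.descFactorial m : ℕ) : P p) * zz p ^ (n - m)) := by
      rw [← pow_mul, mul_comm m p]; ring
    rw [h1, D_pow_mul, Derivation.leibniz, Derivation.map_natCast, smul_zero, add_zero, smul_eq_mul,
      pderiv_pow, D_zz, Nat.descFactorial_succ, Nat.sub_sub]
    push_cast
    ring

theorem lemmaA (i : Fin 2) (I : Ideal (P p)) (hI : ∀ f ∈ I, pderiv (ZMod p) i f ∈ I) (b : ℕ → P p)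
    (n : ℕ) (hn : n < p) (h : ∑ j ∈ Finset.range (n + 1), b j ^ p * zz p ^ j ∈ I) :
    b n ^ p * other i ^ (p * n) ∈ I := by
  have h1 : ∀ m, ∀ f ∈ I, (pderiv (ZMod p) i)^[m] f ∈ I := by
    intro m
    induction m with
    | zero => exact fun f hf => hf
    | succ m ih =>
      intro f hf
      rw [Function.iterate_succ_apply]
      exact ih _ (hI f hf)
  have h2 := h1 n _ h
  have h3 : ∀ m, ∀ s : Finset ℕ, (pderiv (ZMod p) i)^[m] (∑ j ∈ s, b j ^ p * zz p ^ j) =
      ∑ j ∈ s, (pderiv (ZMod p) i)^[m] (b j ^ p * zz p ^ j) := by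
    intro m s
    induction m with
    | zero => rfl
    | succ m ih =>
      rw [Function.iterate_succ_apply', ih, map_sum]
      refine Finset.sum_congr rfl fun j _ => ?_
      rw [Function.iterate_succ_apply']
  rw [h3, Finset.sum_range_succ, Finset.sum_eq_zero, zero_add, D_iter, Nat.sub_self, pow_zero,
    mul_one, Nat.descFactorial_self] at h2
  · have h4 : IsUnit ((n.factorial : ℕ) : P p) := by
      have h5 : IsUnit ((n.factorial : ℕ) : ZMod p) := by
        rw [isUnit_iff_ne_zero, Ne, CharP.cast_eq_zero_iff (ZMod p) p]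
        intro hd
        exact absurd ((Nat.Prime.dvd_factorial hp.out).1 hd) (by omega)
      have h6 := h5.map (algebraMap (ZMod p) (P p))
      rwa [map_natCast] at h6
    obtain ⟨c, hc⟩ := h4.exists_left_inv
    have h7 : b n ^ p * other i ^ (p * n) =
        c * (b n ^ p * (((n.factorial : ℕ) : P p) * other i ^ (p * n))) := by
      linear_combination (-(b n ^ p * other i ^ (p * n))) * hc
    rw [h7]
    exact I.mul_mem_left _ h2
  · intro j hj
    rw [D_iter, Nat.descFactorial_of_lt (Finset.mem_range.1 hj)]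
    simp

theorem X_ne (i : Fin 2) : (X i : P p) ≠ 0 := by
  intro h
  have h1 := congrArg (coeff (Finsupp.single i 1)) h
  rw [X, coeff_monomial_same, map_zero] at h1
  exact one_ne_zero h1

theorem other_ne_zero (i : Fin 2) : (other i : P p) ≠ 0 := X_ne _

theorem zero_of_sum (b : ℕ → P p) (n : ℕ) (hn : n ≤ p)
    (h : ∑ j ∈ Finset.range n, b j ^ p * zz p ^ j = 0) : ∀ j < n, b j = 0 := by
  induction n with
  | zero => intro j hj; omega
  | succ n ih =>
    have h1 := lemmaA 0 ⊥ (by intro f hf; rw [Ideal.mem_bot] at hf ⊢; rw [hf, map_zero]) b n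
      (by omega) (by rw [h]; exact Submodule.zero_mem _)
    rw [Ideal.mem_bot, mul_eq_zero] at h1
    have h2 : b n = 0 := by
      rcases h1 with h1 | h1
      · exact pow_eq_zero_iff hp.out.ne_zero |>.1 h1
      · exact absurd h1 (pow_ne_zero _ (other_ne_zero 0))
    rw [Finset.sum_range_succ, h2, zero_pow hp.out.ne_zero, zero_mul, add_zero] at h
    intro j hj
    rcases Nat.lt_succ_iff_lt_or_eq.1 hj with hj | rfl
    · exact ih (by omega) h j hj
    · exact h2

theorem not_dvd_both {π : P p} (hπ : Prime π) : ∃ i : Fin 2, ¬ π ∣ other i := by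
  by_contra hcon
  push Not at hcon
  obtain ⟨a, ha⟩ := hcon 1
  obtain ⟨b, hb⟩ := hcon 0
  change X 0 = _ at ha
  change X 1 = _ at hb
  have h1 : (X 0 : P p) * b = X 1 * a := by
    rw [ha, hb]; ring
  have h2 : (X 0 : P p) ∣ a := by
    rw [X_dvd_iff]
    intro m hm
    have h3 : coeff (Finsupp.single 1 1 + m) ((X 1 : P p) * a) = coeff m a := by
      rw [X, coeff_add_monomial_mul, one_mul]
    rw [← h3, ← h1]
    exact (X_dvd_iff.1 (Dvd.intro _ rfl)) _ (by simp [hm])
  obtain ⟨a', ha'⟩ := h2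
  apply hπ.not_isUnit
  refine IsUnit.of_mul_eq_one a' ?_
  have h4 : (X 0 : P p) * (π * a') = X 0 * 1 := by
    rw [mul_one]
    conv_rhs => rw [ha, ha']
    ring
  exact mul_left_cancel₀ (X_ne _) h4

theorem key {π : P p} (hπ : Prime π) (b : ℕ → P p) (n : ℕ) (hn : n ≤ p)
    (h : π ^ p ∣ ∑ j ∈ Finset.range n, b j ^ p * zz p ^ j) : ∀ j < n, π ∣ b j := by
  induction n with
  | zero => intro j hj; omega
  | succ n ih =>
    obtain ⟨i, hi⟩ := not_dvd_both hπ
    have h1 := lemmaA i (Ideal.span {π ^ p}) (by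
      intro f hf
      rw [Ideal.mem_span_singleton] at hf ⊢
      obtain ⟨c, rfl⟩ := hf
      rw [D_pow_mul]
      exact Dvd.intro _ rfl) b n (by omega) (by rwa [Ideal.mem_span_singleton])
    rw [Ideal.mem_span_singleton] at h1
    have h2 : π ∣ b n := by
      have h3 : ¬ π ∣ other i ^ (p * n) := fun hd => hi (hπ.dvd_of_dvd_pow hd)
      have h4 := hπ.pow_dvd_of_dvd_mul_right p h3 h1
      exact hπ.dvd_of_dvd_pow ((dvd_pow_self π hp.out.ne_zero).trans h4)
    have h5 : π ^ p ∣ ∑ j ∈ Finset.range n, b j ^ p * zz p ^ j := by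
      rw [Finset.sum_range_succ] at h
      exact (dvd_add_left ((pow_dvd_pow_of_dvd h2 p).mul_right _)).1 h
    intro j hj
    rcases Nat.lt_succ_iff_lt_or_eq.1 hj with hj | rfl
    · exact ih (by omega) h5 j hj
    · exact h2

end Pool.Agent.H34.HK
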