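import Pool.Agent.H34.HK.PP
import Pool.Agent.H34.HK.FF
import Pool.Agent.H34.HK.Length

/-!
# The ring `A = 𝔽_p[[u^p, v^p]][u^p v + u v^p]`
-/

set_option autoImplicit false

open MvPowerSeries IsLocalRing

noncomputable section

namespace Pool.Agent.H34.HK

variable (p : ℕ) [hp : Fact p.Prime]

variable {p} in
/-- `(b_i) ↦ ∑ b_i ^ p z ^ i` -/
def Psi (b : Fin p → P p) : P p := ∑ i, b i ^ p * zz p ^ (i : ℕ)

variable {p}

theorem Psi_add (b c : Fin p → P p) : Psi (b + c) = Psi b + Psi c := by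
  unfold Psi
  rw [← Finset.sum_add_distrib]
  refine Finset.sum_congr rfl fun i _ => ?_
  rw [Pi.add_apply, add_pow_char, add_mul]

theorem Psi_zero : Psi (0 : Fin p → P p) = 0 := by
  unfold Psi
  refine Finset.sum_eq_zero fun i _ => ?_
  rw [Pi.zero_apply, zero_pow hp.out.ne_zero, zero_mul]

theorem Psi_neg (b : Fin p → P p) : Psi (-b) = -Psi b := by
  have h := Psi_add b (-b)
  rw [add_neg_cancel, Psi_zero] at h
  linear_combination -h

theorem Psi_sub (b c : Fin p → P p) : Psi (b - c) = Psi b - Psi c := by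
  rw [sub_eq_add_neg, Psi_add, Psi_neg, sub_eq_add_neg]

theorem Psi_smul (c : P p) (b : Fin p → P p) : Psi (c • b) = c ^ p * Psi b := by
  unfold Psi
  rw [Finset.mul_sum]
  refine Finset.sum_congr rfl fun i _ => ?_
  rw [Pi.smul_apply, smul_eq_mul, mul_pow, mul_assoc]

theorem Psi_single (i : Fin p) (c : P p) : Psi (Pi.single i c) = c ^ p * zz p ^ (i : ℕ) := by
  unfold Psi
  rw [Finset.sum_eq_single i]
  · rw [Pi.single_eq_same]
  · intro j _ hj
    rw [Pi.single_eq_of_ne hj, zero_pow hp.out.ne_zero, zero_mul]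
  · intro h
    exact absurd (Finset.mem_univ _) h

/-- extension by zero of a finite sequence -/
def ext0 (b : Fin p → P p) (j : ℕ) : P p := if h : j < p then b ⟨j, h⟩ else 0

theorem ext0_apply (b : Fin p → P p) (i : Fin p) : ext0 b i = b i := by
  unfold ext0
  rw [dif_pos i.2]

theorem Psi_eq (b : Fin p → P p) :
    Psi b = ∑ j ∈ Finset.range p, ext0 b j ^ p * zz p ^ j := by
  rw [Finset.sum_range]
  unfold Psi
  refine Finset.sum_congr rfl fun i _ => ?_
  rw [ext0_apply]

theorem Psi_injective : Function.Injective (Psi (p := p)) := by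
  intro b c h
  rw [← sub_eq_zero, ← Psi_sub, Psi_eq] at h
  have h2 := zero_of_sum _ p le_rfl h
  funext i
  have h3 := h2 i i.2
  rw [ext0_apply, Pi.sub_apply, sub_eq_zero] at h3
  exact h3

theorem term_mem (b : P p) (l : ℕ) : ∃ (r : Fin p) (m : ℕ), l = p * m + r ∧
    b ^ p * zz p ^ l = Psi (Pi.single r (b * zz p ^ m)) := by
  refine ⟨⟨l % p, Nat.mod_lt _ hp.out.pos⟩, l / p, (Nat.div_add_mod l p).symm, ?_⟩
  rw [Psi_single, mul_pow, mul_assoc, ← pow_mul, ← pow_add]
  congr 2
  change l = l / p * p + l % p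
  rw [mul_comm]
  exact (Nat.div_add_mod l p).symm

theorem sum_Psi {ι : Type*} (s : Finset ι) (f : ι → Fin p → P p) :
    ∑ i ∈ s, Psi (f i) = Psi (∑ i ∈ s, f i) := by
  classical
  induction s using Finset.induction_on with
  | empty => rw [Finset.sum_empty, Finset.sum_empty, Psi_zero]
  | insert a s ha ih => rw [Finset.sum_insert ha, Finset.sum_insert ha, ih, Psi_add]

variable (p) in
/-- The ring `A`. -/
def AA : Subring (P p) where
  carrier := Set.range Psi
  zero_mem' := ⟨0, Psi_zero⟩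
  one_mem' := ⟨Pi.single ⟨0, hp.out.pos⟩ 1, by rw [Psi_single]; simp⟩
  add_mem' := by
    rintro _ _ ⟨b, rfl⟩ ⟨c, rfl⟩
    exact ⟨b + c, Psi_add b c⟩
  neg_mem' := by
    rintro _ ⟨b, rfl⟩
    exact ⟨-b, Psi_neg b⟩
  mul_mem' := by
    rintro _ _ ⟨b, rfl⟩ ⟨c, rfl⟩
    have h : ∀ i j : Fin p, ∃ d, Psi d = (b i * c j) ^ p * zz p ^ ((i : ℕ) + j) := fun i j => by
      obtain ⟨r, m, -, h⟩ := term_mem (b i * c j) ((i : ℕ) + j)
      exact ⟨_, h.symm⟩
    choose d hd using h
    refine ⟨∑ i, ∑ j, d i j, ?_⟩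
    rw [← sum_Psi, Psi, Psi, Finset.sum_mul_sum]
    refine Finset.sum_congr rfl fun i _ => ?_
    rw [← sum_Psi]
    refine Finset.sum_congr rfl fun j _ => ?_
    rw [hd, mul_pow, pow_add]
    ring

theorem mem_AA {f : P p} : f ∈ AA p ↔ ∃ b, Psi b = f := Iff.rfl

theorem pow_mem_AA (b : P p) : b ^ p ∈ AA p :=
  ⟨Pi.single ⟨0, hp.out.pos⟩ b, by rw [Psi_single]; simp⟩

theorem zz_mem_AA : zz p ∈ AA p := by
  refine ⟨Pi.single ⟨1, hp.out.one_lt⟩ 1, ?_⟩
  rw [Psi_single]; simp

variable (p) in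
/-- `b ↦ b ^ p`, from `P` to `A` -/
def phi : P p →+* AA p := RingHom.codRestrict (frobenius (P p) p) (AA p) pow_mem_AA

@[simp] theorem phi_coe (b : P p) : (phi p b : P p) = b ^ p := rfl

variable (p) in
/-- `z` as an element of `A` -/
def zA : AA p := ⟨zz p, zz_mem_AA⟩

@[simp] theorem zA_coe : (zA p : P p) = zz p := rfl

/-- coordinates -/
def EE (b : Fin p → P p) : AA p := ⟨Psi b, b, rfl⟩

@[simp] theorem EE_coe (b : Fin p → P p) : (EE b : P p) = Psi b := rfl

theorem EE_surj (a : AA p) : ∃ b, EE b = a := by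
  obtain ⟨b, hb⟩ := a.2
  exact ⟨b, Subtype.ext hb⟩

theorem EE_inj {b c : Fin p → P p} (h : EE b = EE c) : b = c :=
  Psi_injective (congrArg Subtype.val h)

theorem EE_add (b c : Fin p → P p) : EE (b + c) = EE b + EE c := Subtype.ext (Psi_add b c)
theorem EE_zero : EE (0 : Fin p → P p) = 0 := Subtype.ext Psi_zero
theorem EE_smul (c : P p) (b : Fin p → P p) : EE (c • b) = phi p c * EE b :=
  Subtype.ext (Psi_smul c b)
theorem EE_single (i : Fin p) (c : P p) : EE (Pi.single i c) = phi p c * zA p ^ (i : ℕ) :=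
  Subtype.ext (by simpa using Psi_single i c)

theorem EE_eq_sum (b : Fin p → P p) : EE b = ∑ i, phi p (b i) * zA p ^ (i : ℕ) := by
  apply Subtype.ext
  rw [EE_coe, Psi]
  push_cast
  rfl

theorem phi_finite : (phi p).Finite :=
  finite_of_sum _ (fun i : Fin p => zA p ^ (i : ℕ)) fun a => by
    obtain ⟨b, rfl⟩ := EE_surj a
    exact ⟨b, EE_eq_sum b⟩

instance : IsNoetherianRing (AA p) := by
  let := (phi p).toAlgebra
  have : Module.Finite (P p) (AA p) := phi_finite
  exact isNoetherian_of_tower (P p) inferInstance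

instance : CharP (AA p) p :=
  charP_of_injective_ringHom (f := (phi p).comp (algebraMap (ZMod p) (P p)))
    (RingHom.injective _) p

theorem frobA_finite : (frobenius (AA p) p).Finite := by
  have h1 : ((AA p).subtype.comp (phi p)).Finite := by
    have : (AA p).subtype.comp (phi p) = frobenius (P p) p := rfl
    rw [this]
    exact frobP_finite
  have h2 : (AA p).subtype.Finite := RingHom.Finite.of_comp_finite h1
  have h3 : frobenius (AA p) p = (phi p).comp (AA p).subtype := by
    ext1 a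
    exact Subtype.ext rfl
  rw [h3]
  exact RingHom.Finite.comp phi_finite h2

theorem isUnit_iff (a : AA p) : IsUnit a ↔ constantCoeff (a : P p) ≠ 0 := by
  rw [← isUnit_iff_ne_zero, ← isUnit_iff_constantCoeff]
  constructor
  · exact fun h => h.map (AA p).subtype
  · intro h
    obtain ⟨f, hf⟩ := h.exists_right_inv
    refine IsUnit.of_mul_eq_one (a ^ (p - 1) * phi p f) (Subtype.ext ?_)
    change (a : P p) * ((a : P p) ^ (p - 1) * f ^ p) = 1
    rw [← mul_assoc, ← pow_succ', Nat.sub_add_cancel hp.out.one_le, ← mul_pow, hf, one_pow]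

instance : IsLocalRing (AA p) := by
  refine IsLocalRing.of_isUnit_or_isUnit_one_sub_self fun r => ?_
  rw [isUnit_iff, isUnit_iff]
  by_cases h : constantCoeff (r : P p) = 0
  · right
    change constantCoeff ((1 : P p) - (r : P p)) ≠ 0
    rw [map_sub, map_one, h]
    simp
  · left
    exact h

theorem mem_maxA {a : AA p} : a ∈ maximalIdeal (AA p) ↔ constantCoeff (a : P p) = 0 := by
  rw [IsLocalRing.mem_maximalIdeal, mem_nonunits_iff, isUnit_iff, not_not]

theorem mem_maxP {f : P p} : f ∈ maximalIdeal (P p) ↔ constantCoeff f = 0 := by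
  rw [IsLocalRing.mem_maximalIdeal, mem_nonunits_iff, isUnit_iff_constantCoeff, isUnit_iff_ne_zero,
    not_not]

instance : Algebra (ZMod p) (AA p) := ((phi p).comp (algebraMap (ZMod p) (P p))).toAlgebra

instance (priority := 5000) instSMulA : SMul (ZMod p) (AA p) := Algebra.toSMul
instance (priority := 5000) instModuleA : Module (ZMod p) (AA p) := Algebra.toModule

theorem algebraMap_A (c : ZMod p) : algebraMap (ZMod p) (AA p) c = phi p (C c) := rfl

theorem hres (r : AA p) : ∃ c : ZMod p, r - algebraMap (ZMod p) (AA p) c ∈ maximalIdeal (AA p) := by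
  refine ⟨constantCoeff (r : P p), ?_⟩
  rw [mem_maxA]
  change constantCoeff ((r : P p) - (C (constantCoeff (r : P p))) ^ p) = 0
  rw [map_sub, map_pow, constantCoeff_C, ZMod.pow_card, sub_self]

end Pool.Agent.H34.HK
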