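import Pool.Agent.H34.HK.Norm
import Pool.Agent.H34.FInj.PS

/-!
# F-signature, Gorenstein property, dimension
-/

set_option autoImplicit false

open MvPowerSeries IsLocalRing Filter RingTheory.Sequence

noncomputable section

namespace Pool.Agent.H34.HK

variable {p : ℕ} [hp : Fact p.Prime]

variable (p) in
/-- the ideal `(x, y)` with `x = u ^ p`, `y = v ^ p` -/
def II : Ideal (AA p) := Ideal.span {phi p (uu p ^ 1), phi p (vv p ^ 1)}

theorem mem_II {b : Fin p → P p} : EE b ∈ II p ↔ ∀ i, b i ∈ maximalIdeal (P p) := by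
  unfold II
  rw [mem_span_phi, ← maxP_eq]

theorem phi_mem_II {c : P p} (hc : c ∈ maximalIdeal (P p)) : phi p c ∈ II p := by
  have h : phi p c = EE (Pi.single ⟨0, hp.out.pos⟩ c) := by
    rw [EE_single]; simp
  rw [h, mem_II]
  intro i
  by_cases hi : i = ⟨0, hp.out.pos⟩
  · rw [hi, Pi.single_eq_same]; exact hc
  · rw [Pi.single_eq_of_ne hi]; exact Submodule.zero_mem _

theorem zz_mem_maxP : zz p ∈ maximalIdeal (P p) := by
  rw [mem_maxP]
  unfold zz
  simp [hp.out.ne_zero]

theorem zA_pow_not_mem {l : ℕ} (hl : l < p) : zA p ^ l ∉ II p := by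
  have h : zA p ^ l = EE (Pi.single ⟨l, hl⟩ 1) := by
    rw [EE_single]; simp
  rw [h, mem_II]
  intro h1
  have h2 := h1 ⟨l, hl⟩
  rw [Pi.single_eq_same, mem_maxP, map_one] at h2
  exact one_ne_zero h2

theorem zA_pow_mem {l : ℕ} (hl : p ≤ l) : zA p ^ l ∈ II p := by
  obtain ⟨m, rfl⟩ := Nat.exists_eq_add_of_le hl
  rw [pow_add]
  refine Ideal.mul_mem_right _ _ ?_
  have : zA p ^ p = phi p (zz p) := Subtype.ext rfl
  rw [this]
  exact phi_mem_II zz_mem_maxP

/-- the socle of `A / (x, y)` -/
theorem exists_mul (a : AA p) (ha : a ∉ II p) : ∃ r, r * a - zA p ^ (p - 1) ∈ II p := by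
  classical
  rw [← EE_coord a, mem_II] at ha
  push Not at ha
  have hne : (Finset.univ.filter fun i : Fin p => coord a i ∉ maximalIdeal (P p)).Nonempty := by
    obtain ⟨i, hi⟩ := ha
    exact ⟨i, by simpa using hi⟩
  obtain ⟨i, hi, hmin⟩ := Finset.exists_min_image _ id hne
  have hi' : coord a i ∉ maximalIdeal (P p) := (Finset.mem_filter.1 hi).2
  have hunit : IsUnit (coord a i) := by
    by_contra h
    exact hi' ((IsLocalRing.mem_maximalIdeal _).2 h)
  obtain ⟨d, hd⟩ := hunit.exists_left_inv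
  refine ⟨phi p d * zA p ^ (p - 1 - (i : ℕ)), ?_⟩
  have h1 : phi p d * zA p ^ (p - 1 - (i : ℕ)) * a =
      ∑ j, phi p (d * coord a j) * zA p ^ (p - 1 - (i : ℕ) + j) := by
    conv_lhs => rw [← EE_coord a, EE_eq_sum, Finset.mul_sum]
    refine Finset.sum_congr rfl fun j _ => ?_
    rw [map_mul, pow_add]; ring
  rw [h1, ← Finset.add_sum_erase _ _ (Finset.mem_univ i)]
  have h2 : phi p (d * coord a i) * zA p ^ (p - 1 - (i : ℕ) + i) = zA p ^ (p - 1) := by
    rw [hd, map_one, one_mul]
    congr 1
    have := i.2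
    omega
  rw [h2, add_sub_cancel_left]
  refine Ideal.sum_mem _ fun j hj => ?_
  have hji : j ≠ i := Finset.ne_of_mem_erase hj
  rcases lt_or_gt_of_ne hji with h | h
  · refine Ideal.mul_mem_right _ _ (phi_mem_II ?_)
    by_contra hcon
    have h3 : coord a j ∉ maximalIdeal (P p) := fun h4 => hcon (Ideal.mul_mem_left _ _ h4)
    have h5 := hmin j (by simpa using h3)
    exact absurd h5 (not_le.2 h)
  · refine Ideal.mul_mem_left _ _ (zA_pow_mem ?_)
    have h3 : (i : ℕ) < j := h
    have := i.2
    omega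

theorem ofList_eq_II : Ideal.ofList [phi p (uu p), phi p (vv p)] = II p := by
  unfold II
  rw [pow_one, pow_one, Ideal.ofList_cons, Ideal.ofList_singleton, Ideal.span_insert]

theorem II_ne_top : II p ≠ ⊤ := by
  intro h
  apply zA_pow_not_mem (p := p) (l := 0) hp.out.pos
  rw [h]
  trivial

theorem isArtinian_quot : IsArtinianRing (AA p ⧸ II p) := by
  have hn : ∃ n, maximalIdeal (AA p) ^ n ≤ II p := by
    apply Ideal.exists_pow_le_of_le_radical_of_fg _ (IsNoetherian.noetherian _)
    intro a ha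
    refine ⟨p, ?_⟩
    have : a ^ p = phi p (a : P p) := Subtype.ext rfl
    rw [this]
    apply phi_mem_II
    rw [mem_maxP]
    exact mem_maxA.1 ha
  obtain ⟨n, hn⟩ := hn
  have h := length_of_T (II p) (fun _ => box 1) (by
    intro b
    unfold II
    rw [mem_span_box]) n hn
  have h2 : Module.length (AA p) (AA p ⧸ II p) ≠ ⊤ := by
    rw [h]
    exact ENat.natCast_ne_top _
  rw [Module.length_ne_top_iff, isFiniteLength_iff_isNoetherian_isArtinian] at h2
  have := h2.2
  exact isArtinian_of_tower (AA p) inferInstance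

theorem reg_y : FInj.Reg (Ideal.span {phi p (uu p)}) (phi p (vv p)) := by
  intro r hr
  rw [Ideal.mem_span_singleton'] at hr
  obtain ⟨s, hs⟩ := hr
  have h1 : vv p • coord r = uu p • coord s := by
    apply EE_inj
    rw [EE_smul, EE_smul, EE_coord, EE_coord, ← hs, mul_comm]
  have h2 : ∀ i, ∃ c, coord r i = uu p * c := by
    intro i
    have h3 : uu p ∣ vv p * coord r i := ⟨coord s i, congrFun h1 i⟩
    have h4 : uu p ∣ coord r i := by
      rw [X_dvd_iff] at h3 ⊢
      intro m hm
      have := h3 (Finsupp.single 1 1 + m) (by simp [hm])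
      rwa [vv, X, coeff_add_monomial_mul, one_mul] at this
    exact h4
  choose c hc using h2
  rw [Ideal.mem_span_singleton']
  refine ⟨EE c, ?_⟩
  rw [mul_comm, ← EE_smul, ← EE_coord r]
  congr 1
  exact (funext hc).symm

theorem isRegular_xy : IsRegular (AA p) [phi p (uu p), phi p (vv p)] := by
  refine IsRegular.of_isWeaklyRegular_of_mem_maximalIdeal (AA p) ?_ ?_
  · intro r hr
    simp only [List.mem_cons, List.not_mem_nil, or_false] at hr
    rcases hr with rfl | rfl
    · exact phi_uu_mem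
    · exact phi_vv_mem
  · rw [FInj.weakly_iff]
    intro i h
    match i, h with
    | 0, _ =>
      intro r hr
      change r ∈ Ideal.ofList []
      change phi p (uu p) * r ∈ Ideal.ofList [] at hr
      rw [Ideal.ofList_nil, Ideal.mem_bot] at hr ⊢
      rcases mul_eq_zero.1 hr with h | h
      · exfalso
        have := congrArg Subtype.val h
        exact pow_ne_zero p (X_ne 0) this
      · exact h
    | 1, _ =>
      change FInj.Reg (Ideal.ofList [phi p (uu p)]) (phi p (vv p))
      rw [Ideal.ofList_singleton]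
      exact reg_y

theorem isGorenstein : IsGorensteinLocal (AA p) := by
  refine ⟨[phi p (uu p), phi p (vv p)], isRegular_xy, ?_, ?_⟩
  · rw [ofList_eq_II]
    exact isArtinian_quot
  · rw [ofList_eq_II]
    intro I J hIJ
    have key : ∀ I : Ideal (AA p ⧸ II p), I ≠ ⊥ → Ideal.Quotient.mk (II p) (zA p ^ (p - 1)) ∈ I := by
      intro I hI
      obtain ⟨x, hx, hx0⟩ := Submodule.exists_mem_ne_zero_of_ne_bot hI
      obtain ⟨a, rfl⟩ := Ideal.Quotient.mk_surjective x
      have ha : a ∉ II p := fun h => hx0 (Ideal.Quotient.eq_zero_iff_mem.2 h)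
      obtain ⟨r, hr⟩ := exists_mul a ha
      have h1 : Ideal.Quotient.mk (II p) (zA p ^ (p - 1)) =
          Ideal.Quotient.mk (II p) r * Ideal.Quotient.mk (II p) a := by
        rw [← map_mul, eq_comm, ← sub_eq_zero, ← map_sub]
        exact Ideal.Quotient.eq_zero_iff_mem.2 hr
      rw [h1]
      exact I.mul_mem_left _ hx
    by_contra hcon
    push Not at hcon
    have h2 : Ideal.Quotient.mk (II p) (zA p ^ (p - 1)) ∈ I ⊓ J :=
      ⟨key I hcon.1, key J hcon.2⟩
    rw [hIJ, Ideal.mem_bot, Ideal.Quotient.eq_zero_iff_mem] at h2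
    exact zA_pow_not_mem (Nat.sub_lt hp.out.pos one_pos) h2

theorem dim_A : ringKrullDim (AA p) = 2 := by
  have h := ringKrullDim_add_length_eq_ringKrullDim_of_isRegular _ (isRegular_xy (p := p))
  rw [ofList_eq_II] at h
  have h1 : ringKrullDim (AA p ⧸ II p) = 0 := by
    have := isArtinian_quot (p := p)
    have : Nontrivial (AA p ⧸ II p) := Ideal.Quotient.nontrivial_iff.2 II_ne_top
    apply le_antisymm
    · exact Ring.krullDimLE_iff.1 inferInstance
    · exact ringKrullDim_nonneg_of_nontrivial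
  rw [← h, h1]
  rfl

/-- there is no surjection `F^e_* A → A` for `e ≥ 1` -/
theorem no_surjection (e : ℕ) (f : FStar p (e + 1) (AA p) →ₗ[AA p] AA p) : ¬ Function.Surjective f := by
  intro hf
  obtain ⟨a, ha⟩ : ∃ a : AA p, f (show FStar p (e + 1) (AA p) from a) = 1 := hf 1
  -- `z ^ q = x ^ q α + y ^ q β`
  have h1 : ∃ α β : AA p, zA p ^ p ^ (e + 1) =
      phi p (uu p) ^ p ^ (e + 1) * α + phi p (vv p) ^ p ^ (e + 1) * β := by
    have h2 : zA p ^ p ^ (e + 1) ∈ frobPow p (e + 1) (maximalIdeal (AA p)) := by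
      refine Ideal.subset_span ⟨zA p, ?_, rfl⟩
      rw [SetLike.mem_coe, mem_maxA, zA_coe]
      exact mem_maxP.1 zz_mem_maxP
    rw [frobPow_eq, Ideal.mem_span_pair] at h2
    obtain ⟨α, β, h2⟩ := h2
    refine ⟨α, β, ?_⟩
    rw [← h2, map_pow, map_pow]
    ring
  obtain ⟨α, β, h1⟩ := h1
  have hs : ∀ r x : AA p, f (show FStar p (e + 1) (AA p) from r ^ p ^ (e + 1) * x) =
      r * f (show FStar p (e + 1) (AA p) from x) := fun r x => f.map_smul r _
  have h3 : zA p = phi p (uu p) * f (show FStar p (e + 1) (AA p) from α * a) +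
      phi p (vv p) * f (show FStar p (e + 1) (AA p) from β * a) := by
    rw [← hs, ← hs, ← map_add]
    have h5 := hs (zA p) a
    rw [ha, mul_one] at h5
    conv_lhs => rw [← h5, h1]
    congr 1
    change (phi p (uu p) ^ p ^ (e + 1) * α + phi p (vv p) ^ p ^ (e + 1) * β) * a =
      phi p (uu p) ^ p ^ (e + 1) * (α * a) + phi p (vv p) ^ p ^ (e + 1) * (β * a)
    ring
  have h6 : zA p ∈ II p := by
    rw [h3]
    refine Ideal.add_mem _ (Ideal.mul_mem_right _ _ ?_) (Ideal.mul_mem_right _ _ ?_)
    · apply phi_mem_II; rw [mem_maxP]; simp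
    · apply phi_mem_II; rw [mem_maxP]; simp
  exact zA_pow_not_mem (p := p) (l := 1) hp.out.one_lt (by rwa [pow_one])

theorem freeRank_succ (e : ℕ) : IsFreeRank (AA p) p (e + 1) 0 := by
  refine ⟨FStar p (e + 1) (AA p), inferInstance, inferInstance, ⟨?_⟩, ?_⟩
  · exact { toFun := fun x => (0, x)
            invFun := fun x => x.2
            map_add' := fun x y => by simp
            map_smul' := fun r x => by simp
            left_inv := fun x => rfl
            right_inv := fun x => Prod.ext (Subsingleton.elim _ _) rfl }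
  · rintro ⟨f, hf⟩
    exact no_surjection e f hf

theorem freeRank_zero : IsFreeRank (AA p) p 0 1 := by
  refine ⟨PUnit, inferInstance, inferInstance, ⟨?_⟩, ?_⟩
  · exact { toFun := fun x => (fun _ => x, PUnit.unit)
            invFun := fun x => x.1 0
            map_add' := fun x y => rfl
            map_smul' := fun r x => by
              refine Prod.ext (funext fun _ => ?_) rfl
              change r ^ p ^ 0 * (show AA p from x) = r * (show AA p from x)
              rw [pow_zero, pow_one]
            left_inv := fun x => rfl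
            right_inv := fun x => Prod.ext (funext fun i => by rw [Subsingleton.elim i 0]) rfl }
  · rintro ⟨f, hf⟩
    obtain ⟨a, ha⟩ := hf 1
    have : f a = 0 := by
      rw [Subsingleton.elim a 0, map_zero]
    rw [this] at ha
    exact zero_ne_one ha

theorem fSignature : IsFSignature (AA p) p 2 0 := by
  refine ⟨fun e => if e = 0 then 1 else 0, ?_, ?_⟩
  · intro e
    rcases Nat.eq_zero_or_pos e with rfl | he
    · exact freeRank_zero
    · obtain ⟨e, rfl⟩ := Nat.exists_eq_succ_of_ne_zero he.ne'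
      exact freeRank_succ e
  · refine tendsto_const_nhds.congr' ?_
    filter_upwards [eventually_gt_atTop 0] with e he
    rw [if_neg (by omega)]
    simp

theorem hk : IsHKMultiplicity (AA p) p 2 p := by
  refine tendsto_const_nhds.congr' ?_
  filter_upwards [eventually_gt_atTop 0] with e he
  obtain ⟨e, rfl⟩ := Nat.exists_eq_succ_of_ne_zero he.ne'
  rw [length_frobPow, ENat.toNat_natCast]
  push_cast
  have : (p : ℝ) ≠ 0 := by exact_mod_cast hp.out.ne_zero
  field_simp

theorem sum_tri (j : ℕ) : (2 : ℝ) * ((∑ a ∈ Finset.range j, (j - a) : ℕ) : ℝ) = j * (j + 1) := by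
  induction j with
  | zero => simp
  | succ j ih =>
    rw [Finset.sum_range_succ']
    have h : ∀ a ∈ Finset.range j, j + 1 - (a + 1) = j - a := fun a _ => by omega
    rw [Finset.sum_congr rfl h, Nat.cast_add, mul_add, ih]
    push_cast
    ring

theorem hs_mult : IsMultiplicity (AA p) 2 p := by
  unfold IsMultiplicity
  have h1 : ∀ n : ℕ, ((2 : ℕ).factorial : ℝ) *
      ((Module.length (AA p) (AA p ⧸ maximalIdeal (AA p) ^ n)).toNat : ℝ) / (n : ℝ) ^ 2 =
      ∑ i : Fin p, (((n - i : ℕ) : ℝ) * (((n - i : ℕ) : ℝ) + 1)) / (n : ℝ) ^ 2 := by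
    intro n
    rw [length_pow, ENat.toNat_natCast, ← Finset.sum_div]
    congr 1
    rw [Nat.cast_sum, Finset.mul_sum]
    refine Finset.sum_congr rfl fun i _ => ?_
    rw [← sum_tri]
    norm_num
  simp only [h1]
  have h2 : (p : ℝ) = ∑ _i : Fin p, (1 : ℝ) := by simp
  rw [h2]
  refine tendsto_finsetSum _ fun i _ => ?_
  have h3 : Tendsto (fun n : ℕ => (1 - (i : ℕ) / (n : ℝ)) * (1 - ((i : ℕ) - 1) / (n : ℝ))) atTop
      (nhds ((1 - 0) * (1 - 0))) := by
    refine Tendsto.mul (tendsto_const_nhds.sub ?_) (tendsto_const_nhds.sub ?_)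
    · exact tendsto_const_div_atTop_nhds_zero_nat _
    · exact tendsto_const_div_atTop_nhds_zero_nat _
  simp only [sub_zero, mul_one] at h3
  refine h3.congr' ?_
  filter_upwards [eventually_gt_atTop p] with n hn
  have h4 : (i : ℕ) ≤ n := by
    have := i.2
    omega
  rw [Nat.cast_sub h4]
  have h5 : (n : ℝ) ≠ 0 := by
    have := hp.out.pos
    exact_mod_cast (show n ≠ 0 by omega)
  field_simp
  ring

end Pool.Agent.H34.HK
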